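import Pool.Agent.N922.PY.Stm

/-! # Part QUA: quadratic polynomials over the 2-adic numbers -/

set_option autoImplicit false

open Polynomial
open scoped Classical

namespace Pool.Agent.N93.PY

open Pool.Agent.N922.PY (r2 S_QUA)

lemma tz (x : ℤ_[2]) : PadicInt.toZMod (p := 2) x = 0 ↔ ‖x‖ < 1 := by
  rw [← RingHom.mem_ker, PadicInt.ker_toZMod, IsLocalRing.mem_maximalIdeal, PadicInt.mem_nonunits]

/-- Hensel's lemma for `t ^ 2 + m t + s`. -/
lemma hens (m s : ℤ_[2]) (hm : ‖m‖ = 1) (hs : ‖s‖ < 1) : ∃ t : ℤ_[2], t ^ 2 + m * t + s = 0 := by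
  have h := hensels_lemma (p := 2) (F := (X ^ 2 + C m * X + C s : ℤ_[2][X])) (a := (0 : ℤ_[2])) (by
    simp [hm, hs])
  obtain ⟨z, hz, -⟩ := h
  refine ⟨z, ?_⟩
  simpa using hz

/-- A quadratic polynomial with a root. -/
lemma fac (p q a : ℚ_[2]) (h : a ^ 2 + p * a + q = 0) :
    (X ^ 2 + C p * X + C q : ℚ_[2][X]) = (X - C a) * (X - C (-p - a)) := by
  have hq : q = a * (-p - a) := by linear_combination h
  rw [hq]
  simp only [map_mul, map_sub, map_neg]
  ring

theorem qua : Pool.Agent.N922.PY.S_QUA := by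
  intro u hu hdeg
  have key : ∀ p q : ℚ_[2], (X ^ 2 + C p * X + C q : ℚ_[2][X]) = u →
      (∃ u' : ℤ_[2][X], u'.Monic ∧ u = u'.map (algebraMap ℤ_[2] ℚ_[2]) ∧
    ((∃ c : ZMod 2, r2 u' = (X - C c) ^ u'.natDegree) ∨
      (u'.natDegree = 2 ∧ r2 u' = X ^ 2 + X + 1))) ∨
  (∃ (v : ℤ_[2][X]) (c : ℚ_[2]), r2 v = 1 ∧ v.natDegree ≤ 2 ∧
    u = C c * v.map (algebraMap ℤ_[2] ℚ_[2])) ∨
  ∃ a b : ℚ_[2], u = (X - C a) * (X - C b) := by
    intro p q hpq
    -- a root is enough
    by_cases hroot : ∃ a : ℚ_[2], a ^ 2 + p * a + q = 0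
    · obtain ⟨a, ha⟩ := hroot
      exact Or.inr (Or.inr ⟨a, -p - a, by rw [← hpq]; exact fac p q a ha⟩)
    by_cases hint : ‖p‖ ≤ 1 ∧ ‖q‖ ≤ 1
    · obtain ⟨p', hp'⟩ : ∃ p' : ℤ_[2], algebraMap ℤ_[2] ℚ_[2] p' = p := ⟨⟨p, hint.1⟩, rfl⟩
      obtain ⟨q', hq'⟩ : ∃ q' : ℤ_[2], algebraMap ℤ_[2] ℚ_[2] q' = q := ⟨⟨q, hint.2⟩, rfl⟩
      have hmon : (X ^ 2 + C p' * X + C q' : ℤ_[2][X]).Monic := by monicity!
      have hnd : (X ^ 2 + C p' * X + C q' : ℤ_[2][X]).natDegree = 2 := by compute_degree!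
      refine Or.inl ⟨X ^ 2 + C p' * X + C q', hmon, ?_, ?_⟩
      · rw [← hpq, ← hp', ← hq']
        simp
      · have hr : r2 (X ^ 2 + C p' * X + C q' : ℤ_[2][X]) =
            X ^ 2 + C (PadicInt.toZMod (p := 2) p') * X + C (PadicInt.toZMod (p := 2) q') := by
          simp
        have h01 : ∀ x : ZMod 2, x = 0 ∨ x = 1 := by decide
        rcases h01 (PadicInt.toZMod (p := 2) p') with h1 | h1
        · rcases h01 (PadicInt.toZMod (p := 2) q') with h2 | h2
          · refine Or.inl ⟨0, ?_⟩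
            rw [hr, h1, h2, hnd]
            simp
          · refine Or.inl ⟨1, ?_⟩
            rw [hr, h1, h2, hnd]
            have h3 : (2 : (ZMod 2)[X]) = 0 := CharTwo.two_eq_zero
            simp only [C_0, C_1]
            linear_combination (X : (ZMod 2)[X]) * h3
        · rcases h01 (PadicInt.toZMod (p := 2) q') with h2 | h2
          · -- Hensel
            exfalso
            have hp1 : ‖p'‖ = 1 := by
              have h3 : ¬ ‖p'‖ < 1 := by
                rw [← tz, h1]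
                decide
              exact le_antisymm (PadicInt.norm_le_one _) (not_lt.1 h3)
            have hq1 : ‖q'‖ < 1 := (tz _).1 h2
            obtain ⟨t, ht⟩ := hens p' q' hp1 hq1
            apply hroot
            refine ⟨algebraMap ℤ_[2] ℚ_[2] t, ?_⟩
            rw [← hp', ← hq', ← map_pow, ← map_mul, ← map_add, ← map_add, ht, map_zero]
          · refine Or.inr ⟨hnd, ?_⟩
            rw [hr, h1, h2]
            simp
    · by_cases hA : 1 < ‖q‖ ∧ ‖p‖ < ‖q‖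
      · have hq0 : q ≠ 0 := by
          intro h
          rw [h, norm_zero] at hA
          linarith [hA.1]
        have h1 : ‖q⁻¹‖ < 1 := by
          rw [norm_inv]
          exact inv_lt_one_of_one_lt₀ hA.1
        have h2 : ‖p * q⁻¹‖ < 1 := by
          rw [norm_mul, norm_inv, ← div_eq_mul_inv, div_lt_one (by linarith [hA.1])]
          exact hA.2
        obtain ⟨s, hs⟩ : ∃ s : ℤ_[2], algebraMap ℤ_[2] ℚ_[2] s = q⁻¹ := ⟨⟨q⁻¹, h1.le⟩, rfl⟩
        obtain ⟨t, ht⟩ : ∃ t : ℤ_[2], algebraMap ℤ_[2] ℚ_[2] t = p * q⁻¹ :=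
          ⟨⟨p * q⁻¹, h2.le⟩, rfl⟩
        have hs1 : ‖s‖ < 1 := by
          have : ‖s‖ = ‖q⁻¹‖ := by rw [← hs]; rfl
          rw [this]; exact h1
        have ht1 : ‖t‖ < 1 := by
          have : ‖t‖ = ‖p * q⁻¹‖ := by rw [← ht]; rfl
          rw [this]; exact h2
        refine Or.inr (Or.inl ⟨C s * X ^ 2 + C t * X + 1, q, ?_, ?_, ?_⟩)
        · have hs2 := (tz s).2 hs1
          have ht2 := (tz t).2 ht1
          simp [hs2, ht2]
        · compute_degree!
        · rw [← hpq]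
          simp only [Polynomial.map_add, Polynomial.map_mul, Polynomial.map_pow, map_X, map_C,
            Polynomial.map_one, hs, ht]
          have h3 : C q * C q⁻¹ = (1 : ℚ_[2][X]) := by
            rw [← C_mul, mul_inv_cancel₀ hq0, C_1]
          rw [C_mul]
          linear_combination (-(X : ℚ_[2][X]) ^ 2 - C p * X) * h3
      · exfalso
        apply hroot
        have hp1 : 1 < ‖p‖ ∧ ‖q‖ ≤ ‖p‖ := by
          by_cases h3 : 1 < ‖q‖
          · have h4 : ‖q‖ ≤ ‖p‖ := by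
              by_contra h5
              exact hA ⟨h3, not_le.1 h5⟩
            exact ⟨lt_of_lt_of_le h3 h4, h4⟩
          · have h3' := not_lt.1 h3
            have h4 : 1 < ‖p‖ := by
              by_contra h5
              exact hint ⟨not_lt.1 h5, h3'⟩
            exact ⟨h4, h3'.trans h4.le⟩
        have hp0 : p ≠ 0 := by
          intro h
          rw [h, norm_zero] at hp1
          linarith [hp1.1]
        have h2 : ‖q * (p ^ 2)⁻¹‖ < 1 := by
          rw [norm_mul, norm_inv, norm_pow, ← div_eq_mul_inv, div_lt_one (by positivity)]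
          nlinarith [hp1.1, hp1.2]
        obtain ⟨s, hs⟩ : ∃ s : ℤ_[2], algebraMap ℤ_[2] ℚ_[2] s = q * (p ^ 2)⁻¹ :=
          ⟨⟨q * (p ^ 2)⁻¹, h2.le⟩, rfl⟩
        have hs1 : ‖s‖ < 1 := by
          have : ‖s‖ = ‖q * (p ^ 2)⁻¹‖ := by rw [← hs]; rfl
          rw [this]; exact h2
        obtain ⟨t, ht⟩ := hens 1 s (by simp) hs1
        refine ⟨p * algebraMap ℤ_[2] ℚ_[2] t, ?_⟩
        have ht' := congrArg (algebraMap ℤ_[2] ℚ_[2]) ht
        rw [map_add, map_add, map_pow, map_mul, map_one, map_zero, hs] at ht'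
        have h5 : p ^ 2 * (p ^ 2)⁻¹ = 1 := mul_inv_cancel₀ (pow_ne_zero 2 hp0)
        linear_combination p ^ 2 * ht' - q * h5
  have hcases : u.natDegree = 0 ∨ u.natDegree = 1 ∨ u.natDegree = 2 := by omega
  rcases hcases with h | h | h
  · have hu1 : u = 1 := hu.natDegree_eq_zero.1 h
    refine Or.inl ⟨1, monic_one, ?_, Or.inl ⟨0, ?_⟩⟩
    · rw [hu1, Polynomial.map_one]
    · simp
  · have hu1 : u = X + C (u.coeff 0) := by
      conv_lhs => rw [hu.as_sum, h]
      simp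
    obtain ⟨a, ha⟩ : ∃ a, u.coeff 0 = a := ⟨_, rfl⟩
    rw [ha] at hu1
    by_cases hint : ‖a‖ ≤ 1
    · obtain ⟨a', ha'⟩ : ∃ a' : ℤ_[2], algebraMap ℤ_[2] ℚ_[2] a' = a := ⟨⟨a, hint⟩, rfl⟩
      refine Or.inl ⟨X + C a', monic_X_add_C a', ?_, Or.inl ⟨-PadicInt.toZMod (p := 2) a', ?_⟩⟩
      · rw [hu1, ← ha']
        simp
      · rw [natDegree_X_add_C, pow_one, map_neg, sub_neg_eq_add]
        simp
    · have hA : 1 < ‖a‖ := not_le.1 hint
      have ha0 : a ≠ 0 := by
        intro h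
        rw [h, norm_zero] at hA
        linarith
      have h1 : ‖a⁻¹‖ < 1 := by
        rw [norm_inv]
        exact inv_lt_one_of_one_lt₀ hA
      obtain ⟨s, hs⟩ : ∃ s : ℤ_[2], algebraMap ℤ_[2] ℚ_[2] s = a⁻¹ := ⟨⟨a⁻¹, h1.le⟩, rfl⟩
      have hs1 : ‖s‖ < 1 := by
        have : ‖s‖ = ‖a⁻¹‖ := by rw [← hs]; rfl
        rw [this]; exact h1
      refine Or.inr (Or.inl ⟨C s * X + 1, a, ?_, ?_, ?_⟩)
      · have hs2 := (tz s).2 hs1
        simp [hs2]
      · have : (C s * X + 1 : ℤ_[2][X]).natDegree ≤ 1 := by compute_degree!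
        omega
      · rw [hu1]
        simp only [Polynomial.map_add, Polynomial.map_mul, map_X, map_C, Polynomial.map_one, hs]
        have h3 : C a * C a⁻¹ = (1 : ℚ_[2][X]) := by
          rw [← C_mul, mul_inv_cancel₀ ha0, C_1]
        linear_combination -(X : ℚ_[2][X]) * h3
  · refine key (u.coeff 1) (u.coeff 0) ?_
    conv_rhs => rw [hu.as_sum, h]
    simp [Finset.sum_range_succ]
    ring

end Pool.Agent.N93.PY
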